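import Mathlib

/-!
# MP_cb27ba_nt, project TG (theorem G): exact statements of the modules

Power saving for the matrix `χ (a - b)` on sets `A`, `B` which are nearly invariant under one
arithmetic progression `P` of length at least `p ^ δ`, under the energy condition
`E (A + P, B + P) ≤ p ^ (-1/2-δ) |A + P|² |B + P|² |P|`.

Families: a finite family `z : ι → ZMod p`, `i ∈ S` (for the theorem `ι = ZMod p × ZMod p`,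
`S = (A + P) × (B + P)`, `z = t - s - H`). Intervals `z_i + [0, M)`, `M = 2 H`.
-/

set_option autoImplicit false

namespace MPcb27.TG

open Finset
open scoped Pointwise

/-- the symmetric residue of `x` is smaller than `X` in absolute value -/
def Sm {p : ℕ} (X : ℕ) (x : ZMod p) : Prop := x.valMinAbs.natAbs < X

instance {p : ℕ} (X : ℕ) : DecidablePred (Sm (p := p) X) := fun _ => Nat.decLt _ _

/-- number of coincidences -/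
def E0 {p : ℕ} {ι : Type} (S : Finset ι) (z : ι → ZMod p) : ℕ :=
  #((S ×ˢ S).filter fun q => z q.1 = z q.2)

/-- exponential sums -/
noncomputable def G {p : ℕ} [NeZero p] {ι : Type} (S : Finset ι) (z : ι → ZMod p) (n : ZMod p) : ℂ :=
  ∑ i ∈ S, ZMod.stdAddChar (n * z i)

/-- number of quadruples `(i, y, i', y')` with `y' z_i - y z_i'` small -/
def Qn {p : ℕ} {ι : Type} (S : Finset ι) (z : ι → ZMod p) (Y : Finset ℕ) (X : ℕ) : ℕ :=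
  #(((S ×ˢ Y) ×ˢ (S ×ˢ Y)).filter fun q =>
    Sm X ((q.2.2 : ZMod p) * z q.1.1 - (q.1.2 : ZMod p) * z q.2.1))

/-- number of pairs of `(i, n, y)`, `(i', n', y')` with `(z_i + n) / y = (z_i' + n') / y'` -/
def N2 {p : ℕ} {ι : Type} (S : Finset ι) (z : ι → ZMod p) (M : ℕ) (Y : Finset ℕ) : ℕ :=
  #(((S ×ˢ range M ×ˢ Y) ×ˢ (S ×ˢ range M ×ˢ Y)).filter fun q =>
    (q.2.2.2 : ZMod p) * (z q.1.1 + (q.1.2.1 : ZMod p)) =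
      (q.1.2.2 : ZMod p) * (z q.2.1 + (q.2.2.1 : ZMod p)))

/-- the interval `0, 1, ..., H - 1` in `ZMod p` -/
def iv (p H : ℕ) : Finset (ZMod p) := (range H).image fun n : ℕ => (n : ZMod p)

/-- PAR: Parseval. -/
def SpecPAR : Prop :=
  ∀ (p : ℕ) [Fact p.Prime] (ι : Type) (S : Finset ι) (z : ι → ZMod p),
    ∑ n : ZMod p, ‖G S z n‖ ^ 2 = p * E0 S z

/-- LB: the bound for `Qn`. Proof: if `|x| < X` then `|∑_{t<T} e(tx/p)|² ≥ T²/2` (angles at most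
`π/4`); expand the square: `Qn ≤ (2/T²) ∑_{t,t'<T} |V(t-t')|²`, `V(s) = ∑_{y∈Y} G(s y)`; the term
`s = 0` is `(#Y #S)²`, for `s ≥ 1` Cauchy-Schwarz in `y`, and `0 < n = s y < T Y1 ≤ p` is hit at most
`c` times; then PAR. -/
def SpecLB : Prop :=
  ∀ (p : ℕ) [Fact p.Prime] (ι : Type) (S : Finset ι) (z : ι → ZMod p) (Y : Finset ℕ)
    (Y1 X T c : ℕ), 1 ≤ T → 8 * T * X ≤ p → T * Y1 ≤ p →
    (∀ y ∈ Y, 1 ≤ y ∧ y ≤ Y1) →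
    (∀ n, 1 ≤ n → n < p → #(Y.filter fun y => y ∣ n) ≤ c) →
    (Qn S z Y X : ℝ) ≤ 2 / T * ((#Y : ℝ) * #S) ^ 2 + 4 / T * ((#Y : ℝ) * c * (p * E0 S z))

/-- CNT: `y = y'` gives the first term (for fixed `n, n'` at most `E0` pairs `i, i'`); for
`y ≠ y'` (coprime) `y n' - y' n = c0` has at most `M / Y0 + 1 ≤ 2 M / Y0` solutions in `[0, M)²`
(`|c0| < M Y1 ≤ p / 2`, so it is an equation in integers). -/
def SpecCNT : Prop :=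
  ∀ (p : ℕ) [Fact p.Prime] (ι : Type) (S : Finset ι) (z : ι → ZMod p) (M Y0 Y1 : ℕ)
    (Y : Finset ℕ), (∀ y ∈ Y, y.Prime ∧ Y0 ≤ y ∧ y ≤ Y1) → 1 ≤ Y0 → Y0 ≤ M → 2 * M * Y1 ≤ p →
    (N2 S z M Y : ℝ) ≤ (M : ℝ) ^ 2 * #Y * E0 S z + 2 * M / Y0 * Qn S z Y (M * Y1)

/-- SM: second moment. From LB, CNT with `T = p / (8 M Y1)`, `X = M Y1`; at most `c` primes
`≥ Y0` divide a number `1 ≤ n < p ≤ Y0 ^ (c+1)`. -/
def SpecSM : Prop :=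
  ∀ (p : ℕ) [Fact p.Prime] (ι : Type) (S : Finset ι) (z : ι → ZMod p) (M Y0 Y1 c : ℕ)
    (Y : Finset ℕ), (∀ y ∈ Y, y.Prime ∧ Y0 ≤ y ∧ y ≤ Y1) → 1 ≤ Y0 → Y0 ≤ M → Y0 ≤ Y1 → 1 ≤ c →
    8 * M * Y1 ≤ p → p ≤ Y0 ^ (c + 1) →
    (N2 S z M Y : ℝ) ≤ 129 * ((Y1 : ℝ) / Y0) * c * (M : ℝ) ^ 2 * #Y * E0 S z +
      64 * ((M : ℝ) ^ 2 * Y1 / (Y0 * p)) * ((#Y : ℝ) * #S) ^ 2

/-- NE: coincidences and additive energy. -/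
def SpecNE : Prop :=
  ∀ (p : ℕ) (A B : Finset (ZMod p)) (w : ZMod p),
    E0 (A ×ˢ B) (fun q => q.1 - q.2 + w) = A.addEnergy B

/-- PR: many primes in `[Y^(1-ε), Y]`. -/
def SpecPR : Prop :=
  ∀ ε : ℝ, 0 < ε → ∃ Y₁ : ℕ, ∀ Y : ℕ, Y₁ ≤ Y → ∃ (Y0 : ℕ) (S : Finset ℕ), 1 ≤ Y0 ∧ Y0 ≤ Y ∧
    (Y : ℝ) ^ (1 - ε) ≤ Y0 ∧ (∀ y ∈ S, y.Prime ∧ Y0 ≤ y ∧ y ≤ Y) ∧ (Y : ℝ) ^ (1 - ε) ≤ #S

/-- TR: averaging over translates. With `A_t = {a ∈ A : t ∈ a + P}`, `P = iv p H`, one has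
`H² ∑ α β χ(a-b) = ∑_{t ∈ A+P, s ∈ B+P} ∑_{a ∈ A_t, b ∈ B_s} α β χ(a-b)`; in the inner sum
`a - b ∈ t - s + (-H, H)`; `OP.four_w` for every `(t, s)` (with `f = χ` on this interval, else `0`,
`ψ (t,s)` a maximising additive character), then Cauchy-Schwarz over `(t, s)`. -/
def SpecTR : Prop :=
  ∀ (p : ℕ) [Fact p.Prime] (H : ℕ), 1 ≤ H → 2 * H ≤ p → ∀ (A B : Finset (ZMod p))
    (α β : ZMod p → ℂ) (χ : MulChar (ZMod p) ℂ),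
    ∃ ψ : ZMod p × ZMod p → AddChar (ZMod p) ℂ,
      (H : ℝ) ^ 2 * ‖∑ a ∈ A, ∑ b ∈ B, α a * β b * χ (a - b)‖ ^ 2 ≤
        (∑ q ∈ (A + iv p H) ×ˢ (B + iv p H),
          ‖∑ n ∈ range (2 * H), χ ((q.1 - q.2 + -(H : ZMod p)) + (n : ZMod p)) *
            ψ q (n : ZMod p)‖ ^ 2) *
        ((∑ a ∈ A, ‖α a‖ ^ 2) * ∑ b ∈ B, ‖β b‖ ^ 2)

/-- HO: Burgess's method and Hoelder for a family of intervals `z_i + [0, M)`, shifts `x y`,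
`x < X`, `y ∈ Y`; BD/Burg: `round`, `inner_bound`, `holder`, `moment`, (`shift` or directly). -/
def SpecHO : Prop :=
  ∀ r : ℕ, 1 ≤ r → ∃ C : ℝ, 0 ≤ C ∧ ∀ (p : ℕ) [Fact p.Prime] (χ : MulChar (ZMod p) ℂ), χ ≠ 1 →
    ∀ (ι : Type) (S : Finset ι) (z : ι → ZMod p) (ψ : ι → AddChar (ZMod p) ℂ) (M X Y1 : ℕ)
      (Y : Finset ℕ) (ρ : ℝ), 1 ≤ X → X ≤ p → Real.sqrt p ≤ (X : ℝ) ^ r → Y.Nonempty →
      (∀ y ∈ Y, 1 ≤ y ∧ y ≤ Y1) → Y1 < p → 0 ≤ ρ →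
      C * N2 S z M Y * (X : ℝ) ^ 2 * Real.sqrt p ≤ ρ ^ (2 * r) * ((#S : ℝ) * M * #Y) ^ 2 →
      ∑ i ∈ S, ‖∑ n ∈ range M, χ (z i + (n : ZMod p)) * ψ i (n : ZMod p)‖ ≤
        #S * ((M : ℝ) * ρ + 7 * M / X + 2 * X * Y1)

/-- FIN0: the theorem for short intervals, from SM, NE, PR, TR, HO. -/
def SpecFIN0 : Prop :=
  ∀ δ : ℝ, 0 < δ → δ ≤ 1 / 4 → ∃ τ : ℝ, 0 < τ ∧ ∃ P : ℕ, ∀ (p : ℕ) [Fact p.Prime], P ≤ p →
    ∀ H : ℕ, (p : ℝ) ^ δ ≤ H → (H : ℝ) ≤ (p : ℝ) ^ (1 / 4 + δ / 4) →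
    ∀ A B : Finset (ZMod p),
      (((A + iv p H).addEnergy (B + iv p H) : ℕ) : ℝ) ≤
        (p : ℝ) ^ (-(1 / 2) - δ) * (#(A + iv p H) : ℝ) ^ 2 * (#(B + iv p H) : ℝ) ^ 2 * H →
      ∀ (α β : ZMod p → ℂ) (χ : MulChar (ZMod p) ℂ), χ ≠ 1 →
        ‖∑ a ∈ A, ∑ b ∈ B, α a * β b * χ (a - b)‖ ≤
          (p : ℝ) ^ (-τ) * Real.sqrt ((#(A + iv p H) : ℝ) * #(B + iv p H)) *
            (Real.sqrt (∑ a ∈ A, ‖α a‖ ^ 2) * Real.sqrt (∑ b ∈ B, ‖β b‖ ^ 2))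

/-- the final theorem, all progressions (long ones from `MPcb27.dblOp` with `K = 2`) -/
def FinalG : Prop :=
  ∀ δ : ℝ, 0 < δ → ∃ τ : ℝ, 0 < τ ∧ ∃ P : ℕ, ∀ (p : ℕ) [Fact p.Prime], P ≤ p →
    ∀ (g : ZMod p) (N : ℕ) (L : Finset (ZMod p)),
      L = (range N).image (fun n : ℕ => (n : ZMod p) * g) → (p : ℝ) ^ δ ≤ #L →
      ∀ A B : Finset (ZMod p),
      (((A + L).addEnergy (B + L) : ℕ) : ℝ) ≤
        (p : ℝ) ^ (-(1 / 2) - δ) * (#(A + L) : ℝ) ^ 2 * (#(B + L) : ℝ) ^ 2 * #L →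
      ∀ (α β : ZMod p → ℂ) (χ : MulChar (ZMod p) ℂ), χ ≠ 1 →
        ‖∑ a ∈ A, ∑ b ∈ B, α a * β b * χ (a - b)‖ ≤
          (p : ℝ) ^ (-τ) * Real.sqrt ((#(A + L) : ℝ) * #(B + L)) *
            (Real.sqrt (∑ a ∈ A, ‖α a‖ ^ 2) * Real.sqrt (∑ b ∈ B, ‖β b‖ ^ 2))

end MPcb27.TG
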