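import Mathlib
import Pool.Agent.Lib.MP_cb27ba_nt.TG.Spec

section
/-!
# MP_cb27ba_nt, project TG: module PR

For `ε > 0` and all large `Y` there are at least `Y ^ (1 - ε)` primes in `[Y ^ (1 - ε), Y]`.
-/
set_option autoImplicit false

namespace MPcb27.TG

open Finset Filter

theorem pr_log_small (ε : ℝ) (hε : 0 < ε) :
    ∃ Y₁ : ℕ, ∀ Y : ℕ, Y₁ ≤ Y → Real.log Y ≤ 1 / 16 * (Y : ℝ) ^ ε := by
  have h := (isLittleO_log_rpow_atTop hε).bound (show (0 : ℝ) < 1 / 16 by norm_num)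
  have h2 := tendsto_natCast_atTop_atTop (R := ℝ) |>.eventually h
  rw [eventually_atTop] at h2
  obtain ⟨N, hN⟩ := h2
  refine ⟨N, fun Y hY => ?_⟩
  have := hN Y hY
  rw [Real.norm_eq_abs, Real.norm_of_nonneg (Real.rpow_nonneg (Nat.cast_nonneg Y) ε)] at this
  exact (le_abs_self _).trans this

theorem specPR : SpecPR := by
  intro ε hε
  obtain ⟨Y₁, h1⟩ := pr_log_small ε hε
  obtain ⟨Y₂, h2⟩ := pr_log_small 1 one_pos
  refine ⟨max (max Y₁ Y₂) 16, fun Y hY => ?_⟩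
  have hY1 : Real.log Y ≤ 1 / 16 * (Y : ℝ) ^ ε := h1 Y (by omega)
  have hY2 : Real.log Y ≤ 1 / 16 * (Y : ℝ) := by
    have := h2 Y (by omega)
    rwa [Real.rpow_one] at this
  have hY16 : (16 : ℝ) ≤ Y := by exact_mod_cast (show 16 ≤ Y by omega)
  have hYpos : (0 : ℝ) < Y := by linarith
  have hYone : (1 : ℝ) ≤ Y := by linarith
  have hpow : (0 : ℝ) < (Y : ℝ) ^ (1 - ε) := Real.rpow_pos_of_pos hYpos _
  have hpowle : (Y : ℝ) ^ (1 - ε) ≤ Y := by
    calc (Y : ℝ) ^ (1 - ε) ≤ (Y : ℝ) ^ (1 : ℝ) :=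
          Real.rpow_le_rpow_of_exponent_le hYone (by linarith)
      _ = Y := Real.rpow_one _
  set Y0 : ℕ := ⌈(Y : ℝ) ^ (1 - ε)⌉₊ with hY0
  have hY0pos : 1 ≤ Y0 := Nat.one_le_iff_ne_zero.mpr (by
    intro h
    rw [hY0, Nat.ceil_eq_zero] at h
    linarith)
  have hY0le : Y0 ≤ Y := Nat.ceil_le.mpr hpowle
  have hY0ge : (Y : ℝ) ^ (1 - ε) ≤ Y0 := Nat.le_ceil _
  have hY0lt : (Y0 : ℝ) ≤ (Y : ℝ) ^ (1 - ε) + 1 := (Nat.ceil_lt_add_one hpow.le).le
  refine ⟨Y0, (range (Y + 1)).filter fun y => y.Prime ∧ Y0 ≤ y, hY0pos, hY0le, hY0ge, ?_, ?_⟩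
  · intro y hy
    rw [mem_filter, mem_range] at hy
    exact ⟨hy.2.1, hy.2.2, by omega⟩
  · -- the number of primes up to `Y` is at most `#S + Y0`
    have hcount : Nat.primeCounting Y ≤
        #((range (Y + 1)).filter fun y => y.Prime ∧ Y0 ≤ y) + Y0 := by
      have e1 : Nat.primeCounting Y = #((range (Y + 1)).filter fun y => y.Prime) := by
        rw [Nat.primeCounting, Nat.primeCounting', Nat.count_eq_card_filter_range]
      rw [e1]
      have hsub : ((range (Y + 1)).filter fun y => y.Prime) ⊆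
          ((range (Y + 1)).filter fun y => y.Prime ∧ Y0 ≤ y) ∪ range Y0 := by
        intro y hy
        rw [mem_filter, mem_range] at hy
        rw [mem_union, mem_filter, mem_range, mem_range]
        by_cases h : Y0 ≤ y
        · exact Or.inl ⟨hy.1, hy.2, h⟩
        · exact Or.inr (by omega)
      calc #((range (Y + 1)).filter fun y => y.Prime)
          ≤ #(((range (Y + 1)).filter fun y => y.Prime ∧ Y0 ≤ y) ∪ range Y0) := card_le_card hsub
        _ ≤ _ + #(range Y0) := card_union_le _ _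
        _ = _ := by rw [card_range]
    have hlogpos : 0 < Real.log Y := Real.log_pos (by linarith)
    have hpi := Chebyshev.pi_ge Y
    have hlog1 : Real.log ((Y : ℝ) + 1) ≤ 1 + 1 / 16 * Y := by
      have : Real.log ((Y : ℝ) + 1) ≤ Real.log (2 * Y) :=
        Real.log_le_log (by linarith) (by linarith)
      rw [Real.log_mul (by norm_num) hYpos.ne'] at this
      have h2 : Real.log 2 ≤ 1 := by
        have := Real.log_two_lt_d9
        linarith
      linarith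
    have hmain : Real.log Y * (2 * (Y : ℝ) ^ (1 - ε) + 1) ≤
        Y * Real.log 2 - Real.log ((Y : ℝ) + 1) := by
      have hp : Real.log Y * (Y : ℝ) ^ (1 - ε) ≤ 1 / 16 * Y := by
        calc Real.log Y * (Y : ℝ) ^ (1 - ε)
            ≤ (1 / 16 * (Y : ℝ) ^ ε) * (Y : ℝ) ^ (1 - ε) :=
              mul_le_mul_of_nonneg_right hY1 hpow.le
          _ = 1 / 16 * Y := by
              rw [mul_assoc, ← Real.rpow_add hYpos]
              congr 1
              rw [show ε + (1 - ε) = 1 by ring, Real.rpow_one]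
      have hl2 : (0.69 : ℝ) ≤ Real.log 2 := by
        have := Real.log_two_gt_d9
        linarith
      have hY69 : 0.69 * (Y : ℝ) ≤ Y * Real.log 2 := by
        rw [mul_comm]
        exact mul_le_mul_of_nonneg_left hl2 hYpos.le
      nlinarith
    have hpi2 : 2 * (Y : ℝ) ^ (1 - ε) + 1 ≤ (Nat.primeCounting Y : ℝ) := by
      refine le_trans ?_ hpi
      rw [le_div_iff₀ hlogpos, mul_comm]
      exact hmain
    have hcount' : (Nat.primeCounting Y : ℝ) ≤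
        (#((range (Y + 1)).filter fun y => y.Prime ∧ Y0 ≤ y) : ℝ) + Y0 := by
      exact_mod_cast hcount
    linarith

end MPcb27.TG
end

section
/-!
# MP_cb27ba_nt, project TG: the theorem for short intervals
-/
set_option autoImplicit false

namespace MPcb27.TG

open Finset
open scoped Pointwise

/-- a constant is at most a small power of `p` -/
lemma large_p (C s : ℝ) (hs : 0 < s) : ∃ P : ℕ, ∀ p : ℕ, P ≤ p → C ≤ (p : ℝ) ^ s := by
  have h := (tendsto_rpow_atTop hs).comp (tendsto_natCast_atTop_atTop (R := ℝ))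
  have h2 := h.eventually (Filter.eventually_ge_atTop C)
  obtain ⟨P, hP⟩ := Filter.eventually_atTop.mp h2
  exact ⟨P, fun p hp => hP p hp⟩

set_option maxRecDepth 4000 in
set_option maxHeartbeats 4000000 in
theorem fin0_of (hSM : SpecSM) (hNE : SpecNE) (hPR : SpecPR) (hTR : SpecTR) (hHO : SpecHO) :
    SpecFIN0 := by
  intro δ hδ hδ4
  set η : ℝ := δ / 16 with hη
  have hη0 : 0 < η := by positivity
  obtain ⟨Y₁, hY₁⟩ := hPR η hη0
  -- the number of shifts and the exponent of Hoelder's inequality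
  obtain ⟨r, hr⟩ := exists_nat_ge (1 / (2 * η))
  have hr0 : (0 : ℝ) < r := lt_of_lt_of_le (by positivity) hr
  have hr1 : 1 ≤ r := by
    have : 0 < r := by exact_mod_cast hr0
    exact this
  obtain ⟨C, hC0, hHOr⟩ := hHO r hr1
  obtain ⟨c, hc⟩ := exists_nat_ge (4 / δ)
  have hc0 : (0 : ℝ) < c := lt_of_lt_of_le (by positivity) hc
  have hc1 : 1 ≤ c := by
    have : 0 < c := by exact_mod_cast hc0
    exact this
  set σ : ℝ := min (δ / (4 * r)) η with hσ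
  have hσ0 : 0 < σ := lt_min (by positivity) hη0
  obtain ⟨P1, hP1⟩ := large_p (C * (1032 * c + 256)) (δ / 8) (by positivity)
  obtain ⟨P2, hP2⟩ := large_p (2 * Y₁ + 4) (7 * δ / 8) (by positivity)
  obtain ⟨P3, hP3⟩ := large_p 16 (3 / 8) (by norm_num)
  obtain ⟨P4, hP4⟩ := large_p 40 (σ / 2) (by positivity)
  obtain ⟨P5, hP5⟩ := large_p 2 (δ / 16) (by positivity)
  refine ⟨σ / 4, by positivity, max P1 (max P2 (max P3 (max P4 P5))), ?_⟩
  intro p _ hp H hHlo hHhi A B hE α β χ hχ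
  have hpp : p.Prime := Fact.out
  have h1 := hP1 p ((le_max_left _ _).trans hp)
  have h2 := hP2 p (((le_max_left _ _).trans (le_max_right _ _)).trans hp)
  have h3 := hP3 p ((((le_max_left _ _).trans (le_max_right _ _)).trans (le_max_right _ _)).trans hp)
  have h4 := hP4 p (((((le_max_left _ _).trans (le_max_right _ _)).trans
    (le_max_right _ _)).trans (le_max_right _ _)).trans hp)
  have h5 := hP5 p (((((le_max_right _ _).trans (le_max_right _ _)).trans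
    (le_max_right _ _)).trans (le_max_right _ _)).trans hp)
  have hpR1 : (1 : ℝ) < p := by exact_mod_cast hpp.one_lt
  have hpR0 : (0 : ℝ) < p := by linarith
  set Q : ℝ := (p : ℝ) with hQ
  set a : ℝ := Q ^ η with ha
  have ha2 : 2 ≤ a := h5
  have ha0 : 0 < a := by linarith
  have hpow : ∀ (k : ℕ), a ^ k = Q ^ (k * η) := by
    intro k
    rw [ha, ← Real.rpow_natCast, ← Real.rpow_mul hpR0.le, mul_comm]
  -- the number of `x`
  set X : ℕ := ⌈a⌉₊ with hX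
  have hX1 : a ≤ X := Nat.le_ceil _
  have hX2 : (X : ℝ) ≤ 2 * a := by
    have := Nat.ceil_lt_add_one ha0.le
    linarith
  have hX0 : (0 : ℝ) < X := by linarith
  have hXone : 1 ≤ X := by
    have : 0 < X := by exact_mod_cast hX0
    exact this
  -- the numbers `y`
  have hH0 : (0 : ℝ) < H := lt_of_lt_of_le (by positivity) hHlo
  have hHone : 1 ≤ H := by
    have : 0 < H := by exact_mod_cast hH0
    exact this
  set Y1 : ℕ := ⌊(H : ℝ) / a ^ 2⌋₊ with hY1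
  have hY1hi : (Y1 : ℝ) * a ^ 2 ≤ H := by
    rw [← le_div_iff₀ (by positivity)]
    exact Nat.floor_le (by positivity)
  have hbig : 2 * (Y₁ : ℝ) + 4 ≤ H / a ^ 2 := by
    rw [le_div_iff₀ (by positivity)]
    calc (2 * (Y₁ : ℝ) + 4) * a ^ 2 ≤ Q ^ (7 * δ / 8) * a ^ 2 := by gcongr
      _ = Q ^ δ := by
          rw [hpow 2, ← Real.rpow_add hpR0]
          congr 1
          rw [hη]
          push_cast
          ring
      _ ≤ H := hHlo
  have hY1lo : (H : ℝ) ≤ 2 * a ^ 2 * Y1 := by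
    have h6 : (H : ℝ) / a ^ 2 < Y1 + 1 := Nat.lt_floor_add_one _
    have h7 : (H : ℝ) / a ^ 2 ≤ 2 * Y1 := by
      have : (0 : ℝ) ≤ Y₁ := Nat.cast_nonneg _
      linarith
    rw [div_le_iff₀ (by positivity)] at h7
    linarith
  have hY1big : (Y₁ : ℝ) ≤ Y1 := by
    have h6 : (H : ℝ) / a ^ 2 < Y1 + 1 := Nat.lt_floor_add_one _
    have : (0 : ℝ) ≤ Y₁ := Nat.cast_nonneg _
    linarith
  have hY1pos : (0 : ℝ) < Y1 := by
    have h6 : (H : ℝ) / a ^ 2 < Y1 + 1 := Nat.lt_floor_add_one _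
    have : (0 : ℝ) ≤ Y₁ := Nat.cast_nonneg _
    linarith
  have hY1H : (Y1 : ℝ) ≤ H := by
    have : (1 : ℝ) ≤ a ^ 2 := one_le_pow₀ (by linarith)
    nlinarith
  obtain ⟨Y0, Y, hY0one, hY0Y1, hY0lo, hYprop, hYcard⟩ := hY₁ Y1 (by exact_mod_cast hY1big)
  -- sizes
  have hH58 : (H : ℝ) * H ≤ Q ^ (5 / 8 : ℝ) := by
    calc (H : ℝ) * H ≤ Q ^ (1 / 4 + δ / 4) * Q ^ (1 / 4 + δ / 4) := by gcongr
      _ = Q ^ (1 / 2 + δ / 2) := by
          rw [← Real.rpow_add hpR0]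
          congr 1
          ring
      _ ≤ Q ^ (5 / 8 : ℝ) := Real.rpow_le_rpow_of_exponent_le hpR1.le (by linarith)
  have h16 : 16 * ((H : ℝ) * H) ≤ Q := by
    calc 16 * ((H : ℝ) * H) ≤ Q ^ (3 / 8 : ℝ) * Q ^ (5 / 8 : ℝ) := by gcongr
      _ = Q := by
          rw [← Real.rpow_add hpR0]
          norm_num
  have hH1 : (1 : ℝ) ≤ H := by exact_mod_cast hHone
  have hHp : 16 * (H : ℝ) ≤ Q := by nlinarith
  have hY1p : (Y1 : ℝ) ≤ Q := by linarith
  have hY1a : (Y1 : ℝ) ^ η ≤ a := Real.rpow_le_rpow hY1pos.le hY1p hη0.le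
  have hsplit : (Y1 : ℝ) ^ (1 - η) * (Y1 : ℝ) ^ η = (Y1 : ℝ) := by
    have e : (1 - η) + η = 1 := by ring
    rw [← Real.rpow_add hY1pos, e, Real.rpow_one]
  have hY0pos : (0 : ℝ) < Y0 := by exact_mod_cast hY0one
  have hratio : (Y1 : ℝ) / Y0 ≤ a := by
    rw [div_le_iff₀ hY0pos]
    calc (Y1 : ℝ) = (Y1 : ℝ) ^ (1 - η) * (Y1 : ℝ) ^ η := hsplit.symm
      _ ≤ Y0 * a := by gcongr
      _ = a * Y0 := mul_comm _ _
  have hYY : (Y1 : ℝ) ≤ a * #Y := by
    calc (Y1 : ℝ) = (Y1 : ℝ) ^ (1 - η) * (Y1 : ℝ) ^ η := hsplit.symm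
      _ ≤ #Y * a := by gcongr
      _ = a * #Y := mul_comm _ _
  have hYpos : (0 : ℝ) < #Y := by
    by_contra hcon
    push Not at hcon
    have : a * (#Y : ℝ) ≤ 0 := mul_nonpos_of_nonneg_of_nonpos ha0.le hcon
    linarith
  have hYne : Y.Nonempty := by
    rw [← card_pos]
    exact_mod_cast hYpos
  -- the family
  set AP : Finset (ZMod p) := A + iv p H with hAP
  set BP : Finset (ZMod p) := B + iv p H with hBP
  set S : Finset (ZMod p × ZMod p) := AP ×ˢ BP with hS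
  set z : ZMod p × ZMod p → ZMod p := fun q => q.1 - q.2 + -(H : ZMod p) with hz
  have hScard : (#S : ℝ) = (#AP : ℝ) * #BP := by
    rw [hS, card_product]
    push_cast
    rfl
  have hE0 : (E0 S z : ℝ) ≤ Q ^ (-(1 / 2) - δ) * (#S : ℝ) ^ 2 * (2 * a ^ 3 * #Y) := by
    have e1 : E0 S z = AP.addEnergy BP := hNE p AP BP (-(H : ZMod p))
    rw [e1]
    refine hE.trans ?_
    rw [hScard]
    have e2 : (H : ℝ) ≤ 2 * a ^ 3 * #Y := by
      calc (H : ℝ) ≤ 2 * a ^ 2 * Y1 := hY1lo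
        _ ≤ 2 * a ^ 2 * (a * #Y) := by gcongr
        _ = 2 * a ^ 3 * #Y := by ring
    calc Q ^ (-(1 / 2) - δ) * (#AP : ℝ) ^ 2 * (#BP : ℝ) ^ 2 * H
        = Q ^ (-(1 / 2) - δ) * ((#AP : ℝ) * #BP) ^ 2 * H := by ring
      _ ≤ Q ^ (-(1 / 2) - δ) * ((#AP : ℝ) * #BP) ^ 2 * (2 * a ^ 3 * #Y) := by gcongr
  -- the second moment
  set M : ℕ := 2 * H with hM
  have hMR : (M : ℝ) = 2 * H := by rw [hM]; push_cast; rfl
  have hM0 : (0 : ℝ) < M := by rw [hMR]; linarith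
  have hY1Hn : Y1 ≤ H := by exact_mod_cast hY1H
  have hN2 : (N2 S z M Y : ℝ) ≤ 129 * ((Y1 : ℝ) / Y0) * c * (M : ℝ) ^ 2 * #Y * E0 S z +
      64 * ((M : ℝ) ^ 2 * Y1 / (Y0 * p)) * ((#Y : ℝ) * #S) ^ 2 := by
    refine hSM p _ S z M Y0 Y1 c Y hYprop hY0one (by omega) hY0Y1 hc1 ?_ ?_
    · have : 8 * (M : ℝ) * Y1 ≤ p := by
        rw [hMR]
        calc 8 * (2 * (H : ℝ)) * Y1 ≤ 8 * (2 * (H : ℝ)) * H := by gcongr
          _ = 16 * ((H : ℝ) * H) := by ring
          _ ≤ p := h16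
      exact_mod_cast this
    · have e3 : Q ^ (δ / 4) ≤ Y0 := by
        have e4 : Q ^ (δ / 2) ≤ Y1 := by
          have e5 : Q ^ (7 * δ / 8) ≤ 2 * Y1 := by
            have e6 : Q ^ (7 * δ / 8) * a ^ 2 ≤ 2 * Y1 * a ^ 2 := by
              calc Q ^ (7 * δ / 8) * a ^ 2 = Q ^ δ := by
                    rw [hpow 2, ← Real.rpow_add hpR0]
                    congr 1
                    rw [hη]
                    push_cast
                    ring
                _ ≤ H := hHlo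
                _ ≤ 2 * a ^ 2 * Y1 := hY1lo
                _ = 2 * Y1 * a ^ 2 := by ring
            exact le_of_mul_le_mul_right e6 (by positivity)
          have e7 : Q ^ (δ / 2) * 2 ≤ Q ^ (7 * δ / 8) := by
            calc Q ^ (δ / 2) * 2 ≤ Q ^ (δ / 2) * a := by gcongr
              _ = Q ^ (δ / 2 + η) := by rw [Real.rpow_add hpR0]
              _ ≤ Q ^ (7 * δ / 8) := by
                  refine Real.rpow_le_rpow_of_exponent_le hpR1.le ?_
                  rw [hη]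
                  linarith
          linarith
        calc Q ^ (δ / 4) ≤ Q ^ (δ / 2 * (1 - η)) := by
              refine Real.rpow_le_rpow_of_exponent_le hpR1.le ?_
              rw [hη]
              nlinarith
          _ = (Q ^ (δ / 2)) ^ (1 - η) := by rw [← Real.rpow_mul hpR0.le]
          _ ≤ (Y1 : ℝ) ^ (1 - η) := by
              refine Real.rpow_le_rpow (by positivity) e4 ?_
              rw [hη]
              linarith
          _ ≤ Y0 := hY0lo
      have e8 : Q ≤ (Y0 : ℝ) ^ (c + 1) := by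
        calc Q = Q ^ (1 : ℝ) := (Real.rpow_one _).symm
          _ ≤ Q ^ (δ / 4 * ((c + 1 : ℕ) : ℝ)) := by
              refine Real.rpow_le_rpow_of_exponent_le hpR1.le ?_
              push_cast
              rw [div_le_iff₀ hδ] at hc
              nlinarith
          _ = (Q ^ (δ / 4)) ^ (c + 1) := by
              rw [Real.rpow_mul hpR0.le, Real.rpow_natCast]
          _ ≤ (Y0 : ℝ) ^ (c + 1) := by gcongr
      have e9 : (p : ℝ) ≤ ((Y0 ^ (c + 1) : ℕ) : ℝ) := by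
        push_cast
        exact e8
      exact Nat.cast_le.mp e9
  set W : ℝ := ((#S : ℝ) * M * #Y) ^ 2 with hW
  have hW0 : 0 ≤ W := by positivity
  have hN2' : (N2 S z M Y : ℝ) ≤ W * (258 * c * (a ^ 4 * Q ^ (-(1 / 2) - δ)) + 64 * (a * Q⁻¹)) := by
    refine hN2.trans ?_
    have e1 : 129 * ((Y1 : ℝ) / Y0) * c * (M : ℝ) ^ 2 * #Y * E0 S z ≤
        129 * a * c * (M : ℝ) ^ 2 * #Y * (Q ^ (-(1 / 2) - δ) * (#S : ℝ) ^ 2 * (2 * a ^ 3 * #Y)) := by
      gcongr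
    have e2 : 64 * ((M : ℝ) ^ 2 * Y1 / (Y0 * p)) * ((#Y : ℝ) * #S) ^ 2 ≤
        64 * ((M : ℝ) ^ 2 * (a * Q⁻¹)) * ((#Y : ℝ) * #S) ^ 2 := by
      have e3 : (M : ℝ) ^ 2 * Y1 / (Y0 * p) = (M : ℝ) ^ 2 * (((Y1 : ℝ) / Y0) * Q⁻¹) := by
        rw [hQ]
        field_simp
      rw [e3]
      gcongr
    refine (add_le_add e1 e2).trans (le_of_eq ?_)
    rw [hW]
    ring
  -- Hoelder
  set ρ : ℝ := Q ^ (-(δ / (4 * r))) with hρ
  have hρ0 : 0 ≤ ρ := by positivity
  have hρr : ρ ^ (2 * r) = Q ^ (-(δ / 2)) := by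
    rw [hρ, ← Real.rpow_natCast, ← Real.rpow_mul hpR0.le]
    congr 1
    push_cast
    field_simp
    ring
  have hcond : C * N2 S z M Y * (X : ℝ) ^ 2 * Real.sqrt p ≤
      ρ ^ (2 * r) * ((#S : ℝ) * M * #Y) ^ 2 := by
    rw [hρr, ← hW, Real.sqrt_eq_rpow]
    have e1 : C * N2 S z M Y * (X : ℝ) ^ 2 * Q ^ (1 / 2 : ℝ) ≤
        C * (W * (258 * c * (a ^ 4 * Q ^ (-(1 / 2) - δ)) + 64 * (a * Q⁻¹))) * (2 * a) ^ 2 *
          Q ^ (1 / 2 : ℝ) := by gcongr
    refine e1.trans ?_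
    have e2 : a ^ 6 * (Q ^ (-(1 / 2) - δ) * Q ^ (1 / 2 : ℝ)) ≤ Q ^ (-(δ / 2)) * Q ^ (-(δ / 8)) := by
      rw [hpow 6, ← Real.rpow_add hpR0, ← Real.rpow_add hpR0, ← Real.rpow_add hpR0]
      refine Real.rpow_le_rpow_of_exponent_le hpR1.le ?_
      rw [hη]
      push_cast
      linarith
    have e3 : a ^ 3 * (Q⁻¹ * Q ^ (1 / 2 : ℝ)) ≤ Q ^ (-(δ / 2)) * Q ^ (-(δ / 8)) := by
      rw [hpow 3, ← Real.rpow_neg_one, ← Real.rpow_add hpR0, ← Real.rpow_add hpR0,
        ← Real.rpow_add hpR0]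
      refine Real.rpow_le_rpow_of_exponent_le hpR1.le ?_
      rw [hη]
      push_cast
      linarith
    have e4 : C * (1032 * c + 256) * Q ^ (-(δ / 8)) ≤ 1 := by
      rw [Real.rpow_neg hpR0.le, ← div_eq_mul_inv, div_le_one (by positivity)]
      exact h1
    calc C * (W * (258 * c * (a ^ 4 * Q ^ (-(1 / 2) - δ)) + 64 * (a * Q⁻¹))) * (2 * a) ^ 2 *
          Q ^ (1 / 2 : ℝ)
        = W * (C * (1032 * c * (a ^ 6 * (Q ^ (-(1 / 2) - δ) * Q ^ (1 / 2 : ℝ))) +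
            256 * (a ^ 3 * (Q⁻¹ * Q ^ (1 / 2 : ℝ))))) := by ring
      _ ≤ W * (C * (1032 * c * (Q ^ (-(δ / 2)) * Q ^ (-(δ / 8))) +
            256 * (Q ^ (-(δ / 2)) * Q ^ (-(δ / 8))))) := by gcongr
      _ = (C * (1032 * c + 256) * Q ^ (-(δ / 8))) * (Q ^ (-(δ / 2)) * W) := by ring
      _ ≤ 1 * (Q ^ (-(δ / 2)) * W) := by gcongr
      _ = _ := one_mul _
  have hXp : X ≤ p := by
    have hXQ : (X : ℝ) ≤ (p : ℝ) := by
      calc (X : ℝ) ≤ 2 * a := hX2
        _ ≤ a * a := by nlinarith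
        _ = a ^ 2 := by ring
        _ = Q ^ (((2 : ℕ) : ℝ) * η) := hpow 2
        _ ≤ Q ^ (1 : ℝ) := by
            refine Real.rpow_le_rpow_of_exponent_le hpR1.le ?_
            rw [hη]
            push_cast
            linarith
        _ = Q := Real.rpow_one _
    exact Nat.cast_le.mp hXQ
  have hXr : Real.sqrt p ≤ (X : ℝ) ^ r := by
    rw [Real.sqrt_eq_rpow]
    calc Q ^ (1 / 2 : ℝ) ≤ Q ^ ((r : ℝ) * η) := by
          refine Real.rpow_le_rpow_of_exponent_le hpR1.le ?_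
          rw [div_le_iff₀ (by positivity)] at hr
          linarith
      _ = a ^ r := (hpow r).symm
      _ ≤ (X : ℝ) ^ r := by gcongr
  obtain ⟨ψ, hψ⟩ := hTR p H hHone (by
    have : 2 * (H : ℝ) ≤ p := by linarith
    exact_mod_cast this) A B α β χ
  have hY1lt : Y1 < p := by
    have : (Y1 : ℝ) < (p : ℝ) := by
      have : (0 : ℝ) < Q := hpR0
      change (Y1 : ℝ) < Q
      linarith
    exact Nat.cast_lt.mp this
  have hsum := hHOr p χ hχ _ S z ψ M X Y1 Y ρ hXone hXp hXr hYne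
    (fun y hy => ⟨hY0one.trans (hYprop y hy).2.1, (hYprop y hy).2.2⟩) hY1lt hρ0 hcond
  -- conclusion
  have hsq : ∑ q ∈ S, ‖∑ n ∈ range M, χ (z q + (n : ZMod p)) * ψ q (n : ZMod p)‖ ^ 2 ≤
      M * ∑ q ∈ S, ‖∑ n ∈ range M, χ (z q + (n : ZMod p)) * ψ q (n : ZMod p)‖ := by
    rw [mul_sum]
    refine sum_le_sum fun q _ => ?_
    have e1 : ‖∑ n ∈ range M, χ (z q + (n : ZMod p)) * ψ q (n : ZMod p)‖ ≤ M := by
      refine (norm_sum_le _ _).trans ?_
      refine (sum_le_sum fun n _ => ?_).trans (by simp : ∑ _n ∈ range M, (1 : ℝ) ≤ M)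
      rw [norm_mul, AddChar.norm_apply, mul_one]
      exact DirichletCharacter.norm_le_one χ _
    rw [sq]
    exact mul_le_mul_of_nonneg_right e1 (norm_nonneg _)
  have hXY : (X : ℝ) * Y1 ≤ 2 * (H * a⁻¹) := by
    calc (X : ℝ) * Y1 ≤ 2 * a * Y1 := by gcongr
      _ = 2 * (Y1 * a ^ 2 * a⁻¹) := by
          field_simp
      _ ≤ 2 * (H * a⁻¹) := by gcongr
  have hMX : (M : ℝ) / X ≤ 2 * H * a⁻¹ := by
    rw [hMR, div_eq_mul_inv]
    gcongr
  have hρσ : ρ ≤ Q ^ (-σ) := by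
    rw [hρ]
    refine Real.rpow_le_rpow_of_exponent_le hpR1.le ?_
    have : σ ≤ δ / (4 * r) := min_le_left _ _
    linarith
  have haσ : a⁻¹ ≤ Q ^ (-σ) := by
    rw [ha, ← Real.rpow_neg hpR0.le]
    refine Real.rpow_le_rpow_of_exponent_le hpR1.le ?_
    have : σ ≤ η := min_le_right _ _
    linarith
  have hfin : (M : ℝ) * (#S * ((M : ℝ) * ρ + 7 * M / X + 2 * X * Y1)) ≤
      (H : ℝ) ^ 2 * (#S * (Q ^ (-(σ / 4))) ^ 2) := by
    have e1 : (M : ℝ) * ρ + 7 * M / X + 2 * X * Y1 ≤ 20 * H * Q ^ (-σ) := by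
      have e2 : (M : ℝ) * ρ ≤ 2 * H * Q ^ (-σ) := by
        rw [hMR]
        gcongr
      have e3 : 7 * (M : ℝ) / X ≤ 14 * H * Q ^ (-σ) := by
        calc 7 * (M : ℝ) / X = 7 * (M / X) := by ring
          _ ≤ 7 * (2 * H * a⁻¹) := by gcongr
          _ ≤ 7 * (2 * H * Q ^ (-σ)) := by gcongr
          _ = _ := by ring
      have e4 : 2 * (X : ℝ) * Y1 ≤ 4 * H * Q ^ (-σ) := by
        calc 2 * (X : ℝ) * Y1 = 2 * (X * Y1) := by ring
          _ ≤ 2 * (2 * (H * a⁻¹)) := by gcongr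
          _ ≤ 2 * (2 * (H * Q ^ (-σ))) := by gcongr
          _ = _ := by ring
      linarith
    calc (M : ℝ) * (#S * ((M : ℝ) * ρ + 7 * M / X + 2 * X * Y1))
        ≤ (M : ℝ) * (#S * (20 * H * Q ^ (-σ))) := by gcongr
      _ = (H : ℝ) ^ 2 * (#S * (40 * Q ^ (-σ))) := by rw [hMR]; ring
      _ ≤ (H : ℝ) ^ 2 * (#S * (Q ^ (σ / 2) * Q ^ (-σ))) := by gcongr
      _ = (H : ℝ) ^ 2 * (#S * (Q ^ (-(σ / 4))) ^ 2) := by
          congr 2
          rw [← Real.rpow_add hpR0, ← Real.rpow_natCast, ← Real.rpow_mul hpR0.le]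
          congr 1
          push_cast
          ring
  set N : ℝ := ‖∑ a ∈ A, ∑ b ∈ B, α a * β b * χ (a - b)‖ with hN
  set SA : ℝ := ∑ a ∈ A, ‖α a‖ ^ 2 with hSA
  set SB : ℝ := ∑ b ∈ B, ‖β b‖ ^ 2 with hSB
  have hSA0 : 0 ≤ SA := sum_nonneg fun _ _ => by positivity
  have hSB0 : 0 ≤ SB := sum_nonneg fun _ _ => by positivity
  have hH2 : (0 : ℝ) < (H : ℝ) ^ 2 := by positivity
  have hNsq : N ^ 2 ≤ (#S * (Q ^ (-(σ / 4))) ^ 2) * (SA * SB) := by
    have e1 : (H : ℝ) ^ 2 * N ^ 2 ≤ (H : ℝ) ^ 2 * ((#S * (Q ^ (-(σ / 4))) ^ 2) * (SA * SB)) := by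
      calc (H : ℝ) ^ 2 * N ^ 2 ≤ _ := hψ
        _ ≤ ((M : ℝ) * (#S * ((M : ℝ) * ρ + 7 * M / X + 2 * X * Y1))) * (SA * SB) := by
            refine mul_le_mul_of_nonneg_right ?_ (mul_nonneg hSA0 hSB0)
            refine hsq.trans ?_
            exact mul_le_mul_of_nonneg_left hsum hM0.le
        _ ≤ ((H : ℝ) ^ 2 * (#S * (Q ^ (-(σ / 4))) ^ 2)) * (SA * SB) :=
            mul_le_mul_of_nonneg_right hfin (mul_nonneg hSA0 hSB0)
        _ = _ := by ring
    exact le_of_mul_le_mul_left e1 hH2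
  have hR : (Q ^ (-(σ / 4)) * Real.sqrt ((#AP : ℝ) * #BP) * (Real.sqrt SA * Real.sqrt SB)) ^ 2 =
      (#S * (Q ^ (-(σ / 4))) ^ 2) * (SA * SB) := by
    rw [mul_pow, mul_pow, mul_pow, Real.sq_sqrt (by positivity), Real.sq_sqrt hSA0,
      Real.sq_sqrt hSB0, hScard]
    ring
  rw [← hR] at hNsq
  exact abs_le_of_sq_le_sq' hNsq (by positivity) |>.2

end MPcb27.TG
end
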