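import Pool.Agent.Lib.MP_cb27ba_nt.H70.Toep
import Pool.Agent.Lib.MP_cb27ba_nt.TG.Spec

/-!
# MP_cb27ba_nt, project TG: second moment of the Burgess measure of a nonnegative function

For `r : ZMod p → ℝ≥0`, a set `PY` of primes in `[Y0, Y1]` and `ν(u) = ∑_{y, n < N} r(u y - n)`:
`∑ ν² ≤ 65 (Y1/Y0) m N² |PY| ∑ r² + 64 (N² Y1 / (Y0 p)) (|PY| ∑ r)²`, where `m` bounds the number of
prime divisors in `PY` of the integers in `(0, p)`. Then `specSM`.
-/

set_option autoImplicit false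

open Finset ZMod

namespace MPcb27.TG

variable {p : ℕ} [Fact p.Prime]

/-- Fourier transform -/
noncomputable def ft (r : ZMod p → ℝ) (t : ZMod p) : ℂ := ∑ s, (r s : ℂ) * stdAddChar (t * s)

theorem parseval (r : ZMod p → ℝ) : ∑ t, ‖ft r t‖ ^ 2 = p * ∑ s, r s ^ 2 := by
  have h := Pool.Agent.Lib.MP_cb27ba_nt.H70.parseval (M := p) (univ : Finset (ZMod p))
    (fun s => (r s : ℂ)) id Function.injective_id.injOn
  unfold ft
  simp only [id] at h
  rw [h]
  congr 1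
  refine sum_congr rfl fun s _ => ?_
  rw [Complex.norm_real, Real.norm_eq_abs, sq_abs]

/-- a sum over a map with small fibres -/
theorem sum_fib {α β : Type*} [DecidableEq β] [Fintype β] (S : Finset α) (g : α → β) (f : β → ℝ)
    (hf : ∀ b, 0 ≤ f b) (m : ℕ) (hm : ∀ b, #(S.filter fun a => g a = b) ≤ m) :
    ∑ a ∈ S, f (g a) ≤ m * ∑ b, f b := by
  classical
  rw [← sum_fiberwise_of_maps_to (s := S) (t := (univ : Finset β)) (g := g) (fun _ _ => mem_univ _),
    mul_sum]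
  refine sum_le_sum fun b _ => ?_
  have h1 : ∑ a ∈ S with g a = b, f (g a) = #(S.filter fun a => g a = b) * f b := by
    rw [sum_congr rfl (fun a ha => by rw [(mem_filter.mp ha).2]), sum_const, nsmul_eq_mul]
  rw [h1]
  exact mul_le_mul_of_nonneg_right (by exact_mod_cast hm b) (hf b)

/-- the Fejer kernel is large near `0` -/
theorem fejer_low (T C : ℕ) (hTC : 8 * T * C ≤ p) (c : ℤ) (hc : |c| ≤ C) :
    (T : ℝ) ^ 2 / 2 ≤ ‖∑ t ∈ range T, (stdAddChar ((t : ZMod p) * (c : ZMod p)) : ℂ)‖ ^ 2 := by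
  have hp0 : (0 : ℝ) < p := by exact_mod_cast (Fact.out : p.Prime).pos
  have h1 : (T : ℝ) * (√2 / 2) ≤
      ‖∑ t ∈ range T, (stdAddChar ((t : ZMod p) * (c : ZMod p)) : ℂ)‖ := by
    refine le_trans ?_ (Complex.re_le_norm _)
    rw [Complex.re_sum]
    have h2 : ∀ t ∈ range T, √2 / 2 ≤ (stdAddChar ((t : ZMod p) * (c : ZMod p)) : ℂ).re := by
      intro t ht
      rw [mem_range] at ht
      have e1 : ((t : ZMod p) * (c : ZMod p)) = (((t : ℤ) * c : ℤ) : ZMod p) := by push_cast; rfl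
      rw [e1, stdAddChar_coe]
      have e2 : (2 * (Real.pi : ℂ) * Complex.I * (((t : ℤ) * c : ℤ) : ℂ) / (p : ℂ)) =
          ((2 * Real.pi * ((t : ℝ) * c) / p : ℝ) : ℂ) * Complex.I := by
        push_cast
        ring
      rw [e2, Complex.exp_ofReal_mul_I_re, ← Real.cos_abs, ← Real.cos_pi_div_four]
      apply Real.cos_le_cos_of_nonneg_of_le_pi (abs_nonneg _) (by linarith [Real.pi_pos])
      rw [abs_div, abs_mul, abs_mul, abs_of_pos Real.pi_pos, abs_of_pos hp0, abs_mul,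
        abs_of_nonneg (by norm_num : (0 : ℝ) ≤ 2), Nat.abs_cast, div_le_iff₀ hp0]
      have h3 : (|(c : ℝ)|) ≤ C := by exact_mod_cast hc
      have h4 : (t : ℝ) ≤ T := by exact_mod_cast ht.le
      have h5 : 8 * (T : ℝ) * C ≤ p := by exact_mod_cast hTC
      have h6 : (t : ℝ) * |(c : ℝ)| ≤ T * C := mul_le_mul h4 h3 (abs_nonneg _) (by positivity)
      have h7 : 8 * ((t : ℝ) * |(c : ℝ)|) ≤ p := by nlinarith
      have := Real.pi_pos
      nlinarith
    calc (T : ℝ) * (√2 / 2) = ∑ t ∈ range T, √2 / 2 := by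
          rw [sum_const, card_range, nsmul_eq_mul]
      _ ≤ _ := sum_le_sum h2
  have h2 := pow_le_pow_left₀ (by positivity) h1 2
  have h3 : ((T : ℝ) * (√2 / 2)) ^ 2 = (T : ℝ) ^ 2 / 2 := by
    rw [mul_pow, div_pow, Real.sq_sqrt (by norm_num)]; ring
  rwa [h3] at h2

/-- the multiplicity of `(t - t') y` -/
theorem mult (T Y m : ℕ) (hTY : 2 * (T * Y) < p) (PY : Finset ℕ)
    (hPY : ∀ y ∈ PY, y.Prime ∧ y ≤ Y)
    (hdiv : ∀ n : ℕ, 0 < n → n < p → #(PY.filter (· ∣ n)) ≤ m) (t' : ℕ) (ht' : t' < T)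
    (b : ZMod p) :
    #(((range T).erase t' ×ˢ PY).filter fun q =>
      ((q.1 : ZMod p) - (t' : ZMod p)) * (q.2 : ZMod p) = b) ≤ m := by
  classical
  set F := ((range T).erase t' ×ˢ PY).filter fun q =>
      ((q.1 : ZMod p) - (t' : ZMod p)) * (q.2 : ZMod p) = b with hF
  rcases F.eq_empty_or_nonempty with h0 | ⟨q0, hq0⟩
  · rw [h0]; simp
  have hmem : ∀ q ∈ F, q.1 < T ∧ q.1 ≠ t' ∧ q.2 ∈ PY ∧
      ((q.1 : ZMod p) - (t' : ZMod p)) * (q.2 : ZMod p) = b := by
    intro q hq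
    rw [hF, mem_filter, mem_product, mem_erase, mem_range] at hq
    exact ⟨hq.1.1.2, hq.1.1.1, hq.1.2, hq.2⟩
  -- the integer
  set n0 : ℤ := ((q0.1 : ℤ) - t') * q0.2 with hn0
  have habs : ∀ q ∈ F, |((q.1 : ℤ) - t') * q.2| ≤ (T * Y : ℕ) := by
    intro q hq
    obtain ⟨h1, -, h3, -⟩ := hmem q hq
    have h4 := (hPY _ h3).2
    rw [abs_mul, Nat.abs_cast]
    push_cast
    have h5 : |(q.1 : ℤ) - t'| ≤ T := by rw [abs_le]; constructor <;> omega
    have h6 : (q.2 : ℤ) ≤ Y := by exact_mod_cast h4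
    exact mul_le_mul h5 h6 (by positivity) (by positivity)
  have hsame : ∀ q ∈ F, ((q.1 : ℤ) - t') * q.2 = n0 := by
    intro q hq
    have h1 := (hmem q hq).2.2.2
    have h2 := (hmem q0 hq0).2.2.2
    have h3 : ((((q.1 : ℤ) - t') * q.2 - n0 : ℤ) : ZMod p) = 0 := by
      rw [hn0]
      push_cast
      rw [h1, h2, sub_self]
    rw [ZMod.intCast_zmod_eq_zero_iff_dvd] at h3
    have h4 := habs q hq
    have h5 := habs q0 hq0
    have h6 : ((q.1 : ℤ) - t') * q.2 - n0 = 0 := by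
      refine Int.eq_zero_of_abs_lt_dvd h3 ?_
      rw [← hn0] at h5
      calc |((q.1 : ℤ) - t') * q.2 - n0| ≤ |((q.1 : ℤ) - t') * q.2| + |n0| := abs_sub _ _
        _ ≤ (T * Y : ℕ) + (T * Y : ℕ) := add_le_add h4 h5
        _ < p := by push_cast; exact_mod_cast (by linarith : T * Y + T * Y < p)
    omega
  have hn0ne : n0 ≠ 0 := by
    obtain ⟨-, h2, h3, -⟩ := hmem q0 hq0
    rw [hn0]
    refine mul_ne_zero ?_ ?_
    · omega
    · exact_mod_cast (hPY _ h3).1.ne_zero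
  have hcard : #F ≤ #(PY.filter (· ∣ n0.natAbs)) := by
    refine card_le_card_of_injOn (fun q => q.2) ?_ ?_
    · intro q hq
      rw [mem_coe] at hq
      rw [mem_coe, mem_filter]
      refine ⟨(hmem q hq).2.2.1, ?_⟩
      have := hsame q hq
      rw [← Int.natCast_dvd]
      exact ⟨(q.1 : ℤ) - t', by rw [← this]; ring⟩
    · intro q hq q' hq' hqq
      rw [mem_coe] at hq hq'
      have h1 := hsame q hq
      have h2 := hsame q' hq'
      simp only at hqq
      have h3 : (q.2 : ℤ) ≠ 0 := by exact_mod_cast (hPY _ (hmem q hq).2.2.1).1.ne_zero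
      rw [← hqq] at h2
      have h4 : ((q.1 : ℤ) - t') = (q'.1 : ℤ) - t' := mul_right_cancel₀ h3 (h1.trans h2.symm)
      exact Prod.ext (by omega) hqq
  refine hcard.trans (hdiv _ (Int.natAbs_pos.mpr hn0ne) ?_)
  have h5 := habs q0 hq0
  rw [← hn0] at h5
  have h6 : (n0.natAbs : ℤ) ≤ (T * Y : ℕ) := by rw [Int.natCast_natAbs]; exact h5
  have h7 : n0.natAbs ≤ T * Y := by exact_mod_cast h6
  omega

/-- the square of the norm of a sum -/
theorem norm_sq_sum {ι : Type*} (S : Finset ι) (f : ι → ℂ) :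
    ((‖∑ i ∈ S, f i‖ : ℂ)) ^ 2 = ∑ i ∈ S, ∑ j ∈ S, f i * (starRingEnd ℂ) (f j) := by
  rw [← Complex.mul_conj', map_sum, Finset.sum_mul_sum]

theorem conj_add (x : ZMod p) :
    (starRingEnd ℂ) (stdAddChar x : ℂ) = (stdAddChar (-x) : ℂ) :=
  (AddChar.map_neg_eq_conj _ _).symm

/-- expansion of the Fejer sum -/
theorem expand (r : ZMod p → ℝ) (PY : Finset ℕ) (T : ℕ) :
    ∑ y ∈ PY, ∑ y' ∈ PY, ∑ s, ∑ s', r s * r s' *
      ‖∑ t ∈ range T, (stdAddChar ((t : ZMod p) * (s * (y' : ZMod p) - s' * (y : ZMod p))) : ℂ)‖ ^ 2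
      = ∑ t ∈ range T, ∑ t' ∈ range T,
        ‖∑ y ∈ PY, ft r (((t : ZMod p) - (t' : ZMod p)) * (y : ZMod p))‖ ^ 2 := by
  have move : ∀ (G : ℕ → ℕ → ZMod p → ZMod p → ℕ → ℂ),
      ∑ y ∈ PY, ∑ y' ∈ PY, ∑ s, ∑ s', ∑ t ∈ range T, G y y' s s' t =
      ∑ t ∈ range T, ∑ y ∈ PY, ∑ y' ∈ PY, ∑ s, ∑ s', G y y' s s' t := by
    intro G
    calc _ = ∑ y ∈ PY, ∑ y' ∈ PY, ∑ s, ∑ t ∈ range T, ∑ s', G y y' s s' t :=
          sum_congr rfl fun y _ => sum_congr rfl fun y' _ => sum_congr rfl fun s _ => sum_comm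
      _ = ∑ y ∈ PY, ∑ y' ∈ PY, ∑ t ∈ range T, ∑ s, ∑ s', G y y' s s' t :=
          sum_congr rfl fun y _ => sum_congr rfl fun y' _ => sum_comm
      _ = ∑ y ∈ PY, ∑ t ∈ range T, ∑ y' ∈ PY, ∑ s, ∑ s', G y y' s s' t :=
          sum_congr rfl fun y _ => sum_comm
      _ = _ := sum_comm
  have key : ((∑ y ∈ PY, ∑ y' ∈ PY, ∑ s, ∑ s', r s * r s' *
      ‖∑ t ∈ range T, (stdAddChar ((t : ZMod p) * (s * (y' : ZMod p) - s' * (y : ZMod p))) : ℂ)‖ ^ 2
      : ℝ) : ℂ) = ((∑ t ∈ range T, ∑ t' ∈ range T,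
        ‖∑ y ∈ PY, ft r (((t : ZMod p) - (t' : ZMod p)) * (y : ZMod p))‖ ^ 2 : ℝ) : ℂ) := by
    push_cast
    have h1 : ∀ y y' : ℕ, ∀ s s' : ZMod p, (r s : ℂ) * (r s' : ℂ) *
        (‖∑ t ∈ range T, (stdAddChar ((t : ZMod p) * (s * (y' : ZMod p) - s' * (y : ZMod p))) : ℂ)‖
          : ℂ) ^ 2 = ∑ t ∈ range T, ∑ t' ∈ range T, (r s : ℂ) * (r s' : ℂ) *
          (stdAddChar (((t : ZMod p) - (t' : ZMod p)) * (y' : ZMod p) * s) *
            stdAddChar (-(((t : ZMod p) - (t' : ZMod p)) * (y : ZMod p) * s'))) := by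
      intro y y' s s'
      rw [norm_sq_sum, mul_sum]
      refine sum_congr rfl fun t _ => ?_
      rw [mul_sum]
      refine sum_congr rfl fun t' _ => ?_
      rw [conj_add, ← AddChar.map_add_eq_mul, ← AddChar.map_add_eq_mul]
      congr 2
      ring
    simp only [h1]
    rw [move]
    refine sum_congr rfl fun t _ => ?_
    rw [move]
    refine sum_congr rfl fun t' _ => ?_
    rw [norm_sq_sum]
    -- fixed `t, t'`
    rw [sum_comm]
    refine sum_congr rfl fun y' _ => ?_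
    refine sum_congr rfl fun y _ => ?_
    unfold ft
    rw [map_sum, sum_mul_sum]
    refine sum_congr rfl fun s _ => ?_
    refine sum_congr rfl fun s' _ => ?_
    rw [map_mul (starRingEnd ℂ), Complex.conj_ofReal, conj_add]
    ring
  exact_mod_cast key

theorem fourier_bound (r : ZMod p → ℝ) (T Y m : ℕ) (hTY : 2 * (T * Y) < p) (PY : Finset ℕ)
    (hPY : ∀ y ∈ PY, y.Prime ∧ y ≤ Y)
    (hdiv : ∀ n : ℕ, 0 < n → n < p → #(PY.filter (· ∣ n)) ≤ m) :
    ∑ t ∈ range T, ∑ t' ∈ range T,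
        ‖∑ y ∈ PY, ft r (((t : ZMod p) - (t' : ZMod p)) * (y : ZMod p))‖ ^ 2 ≤
      T * ((#PY * ∑ s, r s) ^ 2 + #PY * (m * (p * ∑ s, r s ^ 2))) := by
  rw [sum_comm]
  have h1 : ∀ t' ∈ range T, ∑ t ∈ range T,
        ‖∑ y ∈ PY, ft r (((t : ZMod p) - (t' : ZMod p)) * (y : ZMod p))‖ ^ 2 ≤
      (#PY * ∑ s, r s) ^ 2 + #PY * (m * (p * ∑ s, r s ^ 2)) := by
    intro t' ht'
    rw [← add_sum_erase _ _ ht']
    apply add_le_add
    · rw [sub_self]
      have e1 : ∀ y ∈ PY, ft r (0 * (y : ZMod p)) = ((∑ s, r s : ℝ) : ℂ) := by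
        intro y _
        unfold ft
        rw [zero_mul]
        push_cast
        refine sum_congr rfl fun s _ => ?_
        rw [zero_mul, AddChar.map_zero_eq_one, mul_one]
      rw [sum_congr rfl e1, sum_const, nsmul_eq_mul, norm_mul, Complex.norm_natCast,
        Complex.norm_real, Real.norm_eq_abs, mul_pow, mul_pow, sq_abs]
    · have e2 : ∀ t ∈ (range T).erase t',
          ‖∑ y ∈ PY, ft r (((t : ZMod p) - (t' : ZMod p)) * (y : ZMod p))‖ ^ 2 ≤
          #PY * ∑ y ∈ PY, ‖ft r (((t : ZMod p) - (t' : ZMod p)) * (y : ZMod p))‖ ^ 2 := by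
        intro t _
        refine (pow_le_pow_left₀ (norm_nonneg _) (norm_sum_le _ _) 2).trans ?_
        exact sq_sum_le_card_mul_sum_sq
      refine (sum_le_sum e2).trans ?_
      rw [← mul_sum]
      apply mul_le_mul_of_nonneg_left _ (Nat.cast_nonneg _)
      rw [← parseval, ← sum_product']
      exact sum_fib (((range T).erase t') ×ˢ PY)
        (fun q => ((q.1 : ZMod p) - (t' : ZMod p)) * (q.2 : ZMod p)) (fun n => ‖ft r n‖ ^ 2)
        (fun _ => by positivity) m (mult T Y m hTY PY hPY hdiv t' (mem_range.mp ht'))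
  refine (sum_le_sum h1).trans ?_
  rw [sum_const, card_range, nsmul_eq_mul]

/-- the number of pairs with equal quotients -/
theorem cnt_le (N Y : ℕ) (hNY : 2 * (N * Y) < p) (y y' : ℕ) (hy : y.Prime) (hy' : y'.Prime)
    (hyy : y ≠ y') (hyY : y ≤ Y) (hyY' : y' ≤ Y) (s s' : ZMod p) :
    #((range N ×ˢ range N).filter fun q =>
      (s + (q.1 : ZMod p)) * (y' : ZMod p) = (s' + (q.2 : ZMod p)) * (y : ZMod p)) ≤ N / y + 1 := by
  classical
  set F := (range N ×ˢ range N).filter fun q =>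
      (s + (q.1 : ZMod p)) * (y' : ZMod p) = (s' + (q.2 : ZMod p)) * (y : ZMod p) with hF
  have hmem : ∀ q ∈ F, q.1 < N ∧ q.2 < N ∧
      (s + (q.1 : ZMod p)) * (y' : ZMod p) = (s' + (q.2 : ZMod p)) * (y : ZMod p) := by
    intro q hq
    rw [hF, mem_filter, mem_product, mem_range, mem_range] at hq
    exact ⟨hq.1.1, hq.1.2, hq.2⟩
  have hkey : ∀ q ∈ F, ∀ q' ∈ F, ((q.1 : ℤ) - q'.1) * y' = ((q.2 : ℤ) - q'.2) * y := by
    intro q hq q' hq'
    obtain ⟨a1, a2, a3⟩ := hmem q hq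
    obtain ⟨b1, b2, b3⟩ := hmem q' hq'
    have h1 : ((((q.1 : ℤ) - q'.1) * y' - ((q.2 : ℤ) - q'.2) * y : ℤ) : ZMod p) = 0 := by
      push_cast
      linear_combination a3 - b3
    rw [ZMod.intCast_zmod_eq_zero_iff_dvd] at h1
    have h2 : ((q.1 : ℤ) - q'.1) * y' - ((q.2 : ℤ) - q'.2) * y = 0 := by
      refine Int.eq_zero_of_abs_lt_dvd h1 ?_
      have h3 : |((q.1 : ℤ) - q'.1) * y'| ≤ (N * Y : ℕ) := by
        rw [abs_mul, Nat.abs_cast]
        push_cast
        exact mul_le_mul (by rw [abs_le]; constructor <;> omega) (by exact_mod_cast hyY')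
          (by positivity) (by positivity)
      have h4 : |((q.2 : ℤ) - q'.2) * y| ≤ (N * Y : ℕ) := by
        rw [abs_mul, Nat.abs_cast]
        push_cast
        exact mul_le_mul (by rw [abs_le]; constructor <;> omega) (by exact_mod_cast hyY)
          (by positivity) (by positivity)
      calc _ ≤ |((q.1 : ℤ) - q'.1) * y'| + |((q.2 : ℤ) - q'.2) * y| := abs_sub _ _
        _ ≤ (N * Y : ℕ) + (N * Y : ℕ) := add_le_add h3 h4
        _ < p := by exact_mod_cast (by linarith : N * Y + N * Y < p)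
    omega
  have hcop : IsCoprime (y : ℤ) (y' : ℤ) := by
    rw [Nat.isCoprime_iff_coprime]
    exact (Nat.coprime_primes hy hy').mpr hyy
  have hcard : #F ≤ #(range (N / y + 1)) := by
    refine card_le_card_of_injOn (fun q => q.1 / y) ?_ ?_
    · intro q hq
      rw [mem_coe] at hq
      rw [mem_coe, mem_range]
      have := (hmem q hq).1
      exact Nat.lt_succ_of_le (Nat.div_le_div_right this.le)
    · intro q hq q' hq' hqq
      rw [mem_coe] at hq hq'
      simp only at hqq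
      have h1 := hkey q hq q' hq'
      have h2 : (y : ℤ) ∣ (q.1 : ℤ) - q'.1 := by
        have : (y : ℤ) ∣ ((q.1 : ℤ) - q'.1) * y' := ⟨(q.2 : ℤ) - q'.2, by rw [h1]; ring⟩
        exact hcop.dvd_of_dvd_mul_right this
      have h3 : q.1 % y = q'.1 % y := by
        have h4 : (q'.1 : ℤ) ≡ q.1 [ZMOD y] := Int.modEq_iff_dvd.mpr h2
        exact (Int.natCast_modEq_iff.mp h4).symm
      have h5 : q.1 = q'.1 := by
        rw [← Nat.div_add_mod q.1 y, ← Nat.div_add_mod q'.1 y, hqq, h3]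
      have h6 : q.2 = q'.2 := by
        rw [h5, sub_self, zero_mul] at h1
        have h7 : (y : ℤ) ≠ 0 := by exact_mod_cast hy.ne_zero
        have h8 := (mul_eq_zero.mp h1.symm).resolve_right h7
        omega
      exact Prod.ext h5 h6
  rwa [card_range] at hcard

theorem small_of_cnt (N Y : ℕ) (y y' : ℕ) (hyY : y ≤ Y) (hyY' : y' ≤ Y) (s s' : ZMod p)
    (h : ((range N ×ˢ range N).filter fun q =>
      (s + (q.1 : ZMod p)) * (y' : ZMod p) = (s' + (q.2 : ZMod p)) * (y : ZMod p)).Nonempty) :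
    ∃ c : ℤ, |c| ≤ (N * Y : ℕ) ∧ (c : ZMod p) = s * (y' : ZMod p) - s' * (y : ZMod p) := by
  obtain ⟨q, hq⟩ := h
  rw [mem_filter, mem_product, mem_range, mem_range] at hq
  obtain ⟨⟨h1, h2⟩, h3⟩ := hq
  refine ⟨(q.2 : ℤ) * y - q.1 * y', ?_, ?_⟩
  · have a1 : (q.2 : ℤ) * y ≤ (N * Y : ℕ) := by
      push_cast
      exact mul_le_mul (by omega) (by exact_mod_cast hyY) (by positivity) (by positivity)
    have a2 : (q.1 : ℤ) * y' ≤ (N * Y : ℕ) := by
      push_cast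
      exact mul_le_mul (by omega) (by exact_mod_cast hyY') (by positivity) (by positivity)
    have a3 : (0 : ℤ) ≤ (q.2 : ℤ) * y := by positivity
    have a4 : (0 : ℤ) ≤ (q.1 : ℤ) * y' := by positivity
    rw [abs_le]
    constructor <;> linarith
  · push_cast
    linear_combination -h3

/-- the correlation of two dilates -/
theorem corr (r : ZMod p → ℝ) (N : ℕ) (y y' : ZMod p) (hy : y ≠ 0) :
    ∑ u, (∑ n ∈ range N, r (u * y - (n : ZMod p))) * (∑ n' ∈ range N, r (u * y' - (n' : ZMod p))) =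
    ∑ s, ∑ s', r s * r s' * (#((range N ×ˢ range N).filter fun q =>
      (s + (q.1 : ZMod p)) * y' = (s' + (q.2 : ZMod p)) * y) : ℝ) := by
  classical
  have h1 : ∀ s s' : ZMod p, r s * r s' * (#((range N ×ˢ range N).filter fun q =>
      (s + (q.1 : ZMod p)) * y' = (s' + (q.2 : ZMod p)) * y) : ℝ) =
      ∑ n ∈ range N, ∑ n' ∈ range N,
        if (s + (n : ZMod p)) * y' = (s' + (n' : ZMod p)) * y then r s * r s' else 0 := by
    intro s s'
    rw [card_filter]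
    push_cast
    rw [mul_sum, sum_product]
    refine sum_congr rfl fun n _ => sum_congr rfl fun n' _ => ?_
    split_ifs <;> ring
  have h2 : ∑ s, ∑ s', r s * r s' * (#((range N ×ˢ range N).filter fun q =>
      (s + (q.1 : ZMod p)) * y' = (s' + (q.2 : ZMod p)) * y) : ℝ) =
      ∑ n ∈ range N, ∑ n' ∈ range N, ∑ s, ∑ s',
        if (s + (n : ZMod p)) * y' = (s' + (n' : ZMod p)) * y then r s * r s' else 0 := by
    simp only [h1]
    calc _ = ∑ s, ∑ n ∈ range N, ∑ s', ∑ n' ∈ range N,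
        (if (s + (n : ZMod p)) * y' = (s' + (n' : ZMod p)) * y then r s * r s' else 0) :=
          sum_congr rfl fun s _ => sum_comm
      _ = ∑ n ∈ range N, ∑ s, ∑ s', ∑ n' ∈ range N,
        (if (s + (n : ZMod p)) * y' = (s' + (n' : ZMod p)) * y then r s * r s' else 0) := sum_comm
      _ = ∑ n ∈ range N, ∑ s, ∑ n' ∈ range N, ∑ s',
        (if (s + (n : ZMod p)) * y' = (s' + (n' : ZMod p)) * y then r s * r s' else 0) :=
          sum_congr rfl fun n _ => sum_congr rfl fun s _ => sum_comm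
      _ = _ := sum_congr rfl fun n _ => sum_comm
  rw [h2]
  have h3 : ∑ u, (∑ n ∈ range N, r (u * y - (n : ZMod p))) *
      (∑ n' ∈ range N, r (u * y' - (n' : ZMod p))) =
      ∑ n ∈ range N, ∑ n' ∈ range N, ∑ u, r (u * y - (n : ZMod p)) * r (u * y' - (n' : ZMod p)) := by
    simp only [sum_mul_sum]
    rw [sum_comm]
    exact sum_congr rfl fun n _ => sum_comm
  rw [h3]
  refine sum_congr rfl fun n _ => sum_congr rfl fun n' _ => ?_
  have h4 : ∀ s : ZMod p, ∑ s', (if (s + (n : ZMod p)) * y' = (s' + (n' : ZMod p)) * y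
      then r s * r s' else 0) = r s * r ((s + (n : ZMod p)) * y' / y - (n' : ZMod p)) := by
    intro s
    have h5 : ∀ s' : ZMod p, (s + (n : ZMod p)) * y' = (s' + (n' : ZMod p)) * y ↔
        s' = (s + (n : ZMod p)) * y' / y - (n' : ZMod p) := by
      intro s'
      rw [eq_sub_iff_add_eq, eq_div_iff hy]
      exact eq_comm
    simp only [h5]
    rw [sum_ite_eq' univ]
    simp
  simp only [h4]
  symm
  have hbij : Function.Bijective (fun u : ZMod p => u * y - (n : ZMod p)) := by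
    refine ⟨fun a b hab => ?_, fun b => ⟨(b + n) / y, ?_⟩⟩
    · exact mul_right_cancel₀ hy (sub_left_injective hab)
    · show (b + n) / y * y - (n : ZMod p) = b
      rw [div_mul_cancel₀ _ hy, add_sub_cancel_right]
  rw [← hbij.sum_comp]
  refine sum_congr rfl fun u _ => ?_
  have e : (u * y - (n : ZMod p) + n) * y' / y - (n' : ZMod p) = u * y' - (n' : ZMod p) := by
    rw [sub_add_cancel]
    congr 1
    field_simp
  rw [e]

/-- the diagonal terms -/
theorem diag (r : ZMod p → ℝ) (N : ℕ) (y : ZMod p) (hy : y ≠ 0) :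
    ∑ u, (∑ n ∈ range N, r (u * y - (n : ZMod p))) ^ 2 ≤ (N : ℝ) ^ 2 * ∑ s, r s ^ 2 := by
  have h1 : ∀ u : ZMod p, (∑ n ∈ range N, r (u * y - (n : ZMod p))) ^ 2 ≤
      N * ∑ n ∈ range N, r (u * y - (n : ZMod p)) ^ 2 := by
    intro u
    have := sq_sum_le_card_mul_sum_sq (s := range N) (f := fun n => r (u * y - (n : ZMod p)))
    rwa [card_range] at this
  refine (sum_le_sum fun u _ => h1 u).trans ?_
  rw [← mul_sum, sum_comm]
  have h2 : ∀ n ∈ range N, ∑ u, r (u * y - (n : ZMod p)) ^ 2 = ∑ s, r s ^ 2 := by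
    intro n _
    have hbij : Function.Bijective (fun u : ZMod p => u * y - (n : ZMod p)) := by
      refine ⟨fun a b hab => ?_, fun b => ⟨(b + n) / y, ?_⟩⟩
      · exact mul_right_cancel₀ hy (sub_left_injective hab)
      · show (b + n) / y * y - (n : ZMod p) = b
        rw [div_mul_cancel₀ _ hy, add_sub_cancel_right]
    exact hbij.sum_comp (fun s => r s ^ 2)
  rw [sum_congr rfl h2, sum_const, card_range, nsmul_eq_mul]
  exact le_of_eq (by ring)

/-- **the second moment** -/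
theorem second_moment (r : ZMod p → ℝ) (hr : ∀ s, 0 ≤ r s) (N Y0 Y1 m : ℕ) (hY0 : 1 ≤ Y0)
    (hY0N : Y0 ≤ N) (hY01 : Y0 ≤ Y1)
    (hp : 8 * (N * Y1) ≤ p) (PY : Finset ℕ) (hPY : ∀ y ∈ PY, y.Prime ∧ Y0 ≤ y ∧ y ≤ Y1)
    (hm : 1 ≤ m) (hdiv : ∀ n : ℕ, 0 < n → n < p → #(PY.filter (· ∣ n)) ≤ m) :
    ∑ u : ZMod p, (∑ y ∈ PY, ∑ n ∈ range N, r (u * (y : ZMod p) - (n : ZMod p))) ^ 2 ≤
      65 * ((Y1 : ℝ) / Y0) * m * (N : ℝ) ^ 2 * #PY * ∑ s, r s ^ 2 +
        64 * ((N : ℝ) ^ 2 * Y1 / (Y0 * p)) * (#PY * ∑ s, r s) ^ 2 := by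
  classical
  have hpp : p.Prime := Fact.out
  have hp0 : (0 : ℝ) < p := by exact_mod_cast hpp.pos
  have hN0 : (0 : ℝ) < N := by exact_mod_cast (by omega : 0 < N)
  have hY00 : (0 : ℝ) < Y0 := by exact_mod_cast hY0
  have hY10 : (0 : ℝ) < Y1 := by exact_mod_cast (by omega : 0 < Y1)
  have hNY1 : 1 ≤ N * Y1 := Nat.mul_pos (by omega) (by omega)
  have hYp : Y1 < p := by
    have : Y1 * 1 ≤ Y1 * N := Nat.mul_le_mul_left _ (by omega)
    nlinarith
  have hne : ∀ y ∈ PY, ((y : ℕ) : ZMod p) ≠ 0 := by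
    intro y hy h
    rw [ZMod.natCast_eq_zero_iff] at h
    have h1 := Nat.le_of_dvd (hPY y hy).1.pos h
    have h2 := (hPY y hy).2.2
    omega
  set R2 : ℝ := ∑ s, r s ^ 2 with hR2
  set R1 : ℝ := ∑ s, r s with hR1
  have hR20 : 0 ≤ R2 := sum_nonneg fun s _ => sq_nonneg _
  have hR10 : 0 ≤ R1 := sum_nonneg fun s _ => hr s
  -- the parameter `T`
  set T : ℕ := p / (8 * (N * Y1)) with hT
  have hT1 : 1 ≤ T := (Nat.one_le_div_iff (by omega)).mpr hp
  have hT0 : (0 : ℝ) < T := by exact_mod_cast hT1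
  have hTle : 8 * (N * Y1) * T ≤ p := Nat.mul_div_le _ _
  have hTlow : (p : ℝ) ≤ 16 * (N * Y1) * T := by
    have h1 : p < 8 * (N * Y1) * (T + 1) := Nat.lt_mul_div_succ _ (by omega)
    have h2 : (p : ℝ) < 8 * (N * Y1) * (T + 1) := by exact_mod_cast h1
    have h3 : (1 : ℝ) ≤ T := by exact_mod_cast hT1
    have h4 : (0 : ℝ) < N * Y1 := by positivity
    nlinarith
  -- the weighted count
  set W : ℕ → ℕ → ZMod p → ZMod p → ℝ := fun y y' s s' =>
    ‖∑ t ∈ range T, (stdAddChar ((t : ZMod p) * (s * (y' : ZMod p) - s' * (y : ZMod p))) : ℂ)‖ ^ 2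
    with hW
  have hQ : ∑ y ∈ PY, ∑ y' ∈ PY, ∑ s, ∑ s', r s * r s' * W y y' s s' ≤
      T * ((#PY * R1) ^ 2 + #PY * (m * (p * R2))) := by
    rw [hW, expand]
    refine fourier_bound r T Y1 m ?_ PY (fun y hy => ⟨(hPY y hy).1, (hPY y hy).2.2⟩) hdiv
    have h1 : 2 * (T * Y1) < 8 * (N * Y1) * T := by
      have h2 : T * Y1 ≤ N * Y1 * T := by
        have : T * Y1 * 1 ≤ T * Y1 * N := Nat.mul_le_mul_left _ (by omega)
        nlinarith
      have h3 : 0 < T * Y1 := Nat.mul_pos hT1 (by omega)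
      nlinarith
    omega
  -- expansion of the square
  have hexp : ∑ u : ZMod p, (∑ y ∈ PY, ∑ n ∈ range N, r (u * (y : ZMod p) - (n : ZMod p))) ^ 2 =
      ∑ y ∈ PY, ∑ y' ∈ PY, ∑ u : ZMod p, (∑ n ∈ range N, r (u * (y : ZMod p) - (n : ZMod p))) *
        (∑ n' ∈ range N, r (u * (y' : ZMod p) - (n' : ZMod p))) := by
    simp only [sq, sum_mul_sum]
    rw [sum_comm]
    refine sum_congr rfl fun y _ => ?_
    rw [sum_comm]
  have hterm : ∀ y ∈ PY, ∀ y' ∈ PY, ∑ u : ZMod p,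
      (∑ n ∈ range N, r (u * (y : ZMod p) - (n : ZMod p))) *
        (∑ n' ∈ range N, r (u * (y' : ZMod p) - (n' : ZMod p))) ≤
      (if y = y' then (N : ℝ) ^ 2 * R2 else 0) +
        (2 * N / Y0 * (2 / (T : ℝ) ^ 2)) * ∑ s, ∑ s', r s * r s' * W y y' s s' := by
    intro y hy y' hy'
    have hnn : 0 ≤ (2 * N / Y0 * (2 / (T : ℝ) ^ 2)) * ∑ s, ∑ s', r s * r s' * W y y' s s' := by
      refine mul_nonneg (by positivity) (sum_nonneg fun s _ => sum_nonneg fun s' _ => ?_)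
      exact mul_nonneg (mul_nonneg (hr s) (hr s')) (by positivity)
    by_cases hyy : y = y'
    · subst hyy
      rw [if_pos rfl]
      have := diag r N (y : ZMod p) (hne y hy)
      rw [← hR2] at this
      have e : ∑ u : ZMod p, (∑ n ∈ range N, r (u * (y : ZMod p) - (n : ZMod p))) *
          (∑ n' ∈ range N, r (u * (y : ZMod p) - (n' : ZMod p))) =
          ∑ u : ZMod p, (∑ n ∈ range N, r (u * (y : ZMod p) - (n : ZMod p))) ^ 2 :=
        sum_congr rfl fun u _ => (sq _).symm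
      rw [e]
      linarith
    · rw [if_neg hyy, zero_add, corr r N _ _ (hne y hy), mul_sum]
      refine sum_le_sum fun s _ => ?_
      rw [mul_sum]
      refine sum_le_sum fun s' _ => ?_
      have hrr : 0 ≤ r s * r s' := mul_nonneg (hr s) (hr s')
      rw [show 2 * (N : ℝ) / Y0 * (2 / (T : ℝ) ^ 2) * (r s * r s' * W y y' s s') =
        r s * r s' * (2 * N / Y0 * (2 / (T : ℝ) ^ 2) * W y y' s s') by ring]
      apply mul_le_mul_of_nonneg_left _ hrr
      rcases ((range N ×ˢ range N).filter fun q =>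
        (s + (q.1 : ZMod p)) * (y' : ZMod p) = (s' + (q.2 : ZMod p)) * (y : ZMod p)).eq_empty_or_nonempty
        with h0 | h0
      · rw [h0, card_empty, Nat.cast_zero]
        positivity
      · obtain ⟨c, hc1, hc2⟩ := small_of_cnt N Y1 y y' (hPY y hy).2.2 (hPY y' hy').2.2 s s' h0
        have h1 := cnt_le N Y1 (by omega) y y' (hPY y hy).1 (hPY y' hy').1 hyy (hPY y hy).2.2
          (hPY y' hy').2.2 s s'
        have h2 : (#((range N ×ˢ range N).filter fun q =>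
          (s + (q.1 : ZMod p)) * (y' : ZMod p) = (s' + (q.2 : ZMod p)) * (y : ZMod p)) : ℝ) ≤
            2 * N / Y0 := by
          have h3 : ((N / y + 1 : ℕ) : ℝ) ≤ 2 * N / Y0 := by
            push_cast
            have h4 : ((N / y : ℕ) : ℝ) ≤ N / y := Nat.cast_div_le
            have h5 : (Y0 : ℝ) ≤ y := by exact_mod_cast (hPY y hy).2.1
            have h6 : (0 : ℝ) < y := by exact_mod_cast (hPY y hy).1.pos
            have h7 : (N : ℝ) / y ≤ N / Y0 := div_le_div_of_nonneg_left hN0.le hY00 h5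
            have h8 : (1 : ℝ) ≤ N / Y0 := by
              rw [le_div_iff₀ hY00, one_mul]
              exact_mod_cast hY0N
            have h9 : 2 * (N : ℝ) / Y0 = N / Y0 + N / Y0 := by ring
            rw [h9]
            linarith
          exact le_trans (by exact_mod_cast h1) h3
        have h3 : (T : ℝ) ^ 2 / 2 ≤ W y y' s s' := by
          have h4 := fejer_low (p := p) T (N * Y1) (by linarith [hTle, mul_comm (8 * (N * Y1)) T])
            c hc1
          rw [hc2] at h4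
          rw [hW]
          exact h4
        have h4 : (1 : ℝ) ≤ 2 / (T : ℝ) ^ 2 * W y y' s s' := by
          rw [div_mul_eq_mul_div, le_div_iff₀ (by positivity)]
          linarith
        calc _ ≤ 2 * (N : ℝ) / Y0 * 1 := by rw [mul_one]; exact h2
          _ ≤ 2 * N / Y0 * (2 / (T : ℝ) ^ 2 * W y y' s s') :=
            mul_le_mul_of_nonneg_left h4 (by positivity)
          _ = _ := by ring
  rw [hexp]
  refine (sum_le_sum fun y hy => sum_le_sum fun y' hy' => hterm y hy y' hy').trans ?_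
  have hsum : ∑ y ∈ PY, ∑ y' ∈ PY, ((if y = y' then (N : ℝ) ^ 2 * R2 else 0) +
        (2 * N / Y0 * (2 / (T : ℝ) ^ 2)) * ∑ s, ∑ s', r s * r s' * W y y' s s') =
      #PY * ((N : ℝ) ^ 2 * R2) + (2 * N / Y0 * (2 / (T : ℝ) ^ 2)) *
        ∑ y ∈ PY, ∑ y' ∈ PY, ∑ s, ∑ s', r s * r s' * W y y' s s' := by
    simp only [sum_add_distrib, ← mul_sum]
    congr 1
    rw [sum_congr rfl fun y hy => by rw [sum_ite_eq PY y, if_pos hy], sum_const, nsmul_eq_mul]
  rw [hsum]
  have h5 : (2 * N / Y0 * (2 / (T : ℝ) ^ 2)) *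
        ∑ y ∈ PY, ∑ y' ∈ PY, ∑ s, ∑ s', r s * r s' * W y y' s s' ≤
      (2 * N / Y0 * (2 / (T : ℝ) ^ 2)) * (T * ((#PY * R1) ^ 2 + #PY * (m * (p * R2)))) :=
    mul_le_mul_of_nonneg_left hQ (by positivity)
  have h6 : (2 * N / Y0 * (2 / (T : ℝ) ^ 2)) * (T * ((#PY * R1) ^ 2 + #PY * (m * (p * R2)))) ≤
      64 * ((N : ℝ) ^ 2 * Y1 / (Y0 * p)) * ((#PY * R1) ^ 2 + #PY * (m * (p * R2))) := by
    have h7 : (2 * N / Y0 * (2 / (T : ℝ) ^ 2)) * (T * ((#PY * R1) ^ 2 + #PY * (m * (p * R2)))) =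
        (4 * N / (Y0 * T)) * ((#PY * R1) ^ 2 + #PY * (m * (p * R2))) := by
      field_simp
      ring
    rw [h7]
    apply mul_le_mul_of_nonneg_right _ (by positivity)
    rw [div_le_iff₀ (by positivity)]
    have h8 : 64 * ((N : ℝ) ^ 2 * Y1 / (Y0 * p)) * (Y0 * T) = 4 * N * ((16 * (N * Y1) * T) / p) := by
      field_simp
      ring
    rw [h8]
    have h9 : (1 : ℝ) ≤ (16 * (N * Y1) * T) / p := by
      rw [le_div_iff₀ hp0, one_mul]
      exact hTlow
    have h10 : (0 : ℝ) ≤ 4 * N := by positivity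
    nlinarith
  have h7 : (#PY : ℝ) * ((N : ℝ) ^ 2 * R2) ≤
      ((Y1 : ℝ) / Y0) * m * (N : ℝ) ^ 2 * #PY * R2 := by
    have h8 : (1 : ℝ) ≤ m := by exact_mod_cast hm
    have h9 : (1 : ℝ) ≤ (Y1 : ℝ) / Y0 := by
      rw [le_div_iff₀ hY00, one_mul]
      exact_mod_cast hY01
    have h10 : (1 : ℝ) ≤ (Y1 : ℝ) / Y0 * m := by nlinarith
    have h11 : 0 ≤ (#PY : ℝ) * ((N : ℝ) ^ 2 * R2) := by positivity
    calc (#PY : ℝ) * ((N : ℝ) ^ 2 * R2) = 1 * ((#PY : ℝ) * ((N : ℝ) ^ 2 * R2)) := by ring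
      _ ≤ ((Y1 : ℝ) / Y0 * m) * ((#PY : ℝ) * ((N : ℝ) ^ 2 * R2)) :=
        mul_le_mul_of_nonneg_right h10 h11
      _ = _ := by ring
  have h8 : 64 * ((N : ℝ) ^ 2 * Y1 / (Y0 * p)) * ((#PY * R1) ^ 2 + #PY * (m * (p * R2))) =
      64 * ((N : ℝ) ^ 2 * Y1 / (Y0 * p)) * (#PY * R1) ^ 2 +
        64 * (((Y1 : ℝ) / Y0) * m * (N : ℝ) ^ 2 * #PY * R2) := by
    field_simp
  rw [h8] at h6
  linarith

omit [Fact p.Prime] in
/-- few primes `≥ Y0` divide a small number -/
theorem few_primes (Y0 c : ℕ) (hY0 : 1 ≤ Y0) (hpc : p ≤ Y0 ^ (c + 1)) (Y : Finset ℕ)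
    (hY : ∀ y ∈ Y, y.Prime ∧ Y0 ≤ y) (n : ℕ) (hn : 0 < n) (hnp : n < p) :
    #(Y.filter (· ∣ n)) ≤ c := by
  by_contra hcon
  push Not at hcon
  have h1 : ∏ y ∈ Y.filter (· ∣ n), y ∣ n := by
    apply Finset.prod_primes_dvd
    · intro y hy
      rw [mem_filter] at hy
      exact (hY y hy.1).1.prime
    · intro y hy
      exact (mem_filter.mp hy).2
  have h2 := Nat.le_of_dvd hn h1
  have h3 : Y0 ^ #(Y.filter (· ∣ n)) ≤ ∏ y ∈ Y.filter (· ∣ n), y := by
    rw [← prod_const]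
    exact prod_le_prod' fun y hy => (hY y (mem_filter.mp hy).1).2
  have h4 : Y0 ^ (c + 1) ≤ Y0 ^ #(Y.filter (· ∣ n)) := Nat.pow_le_pow_right hY0 hcon
  omega

/-- SM -/
theorem specSM : SpecSM := by
  classical
  intro p _ ι S z M Y0 Y1 c Y hY hY0 hY0M hY01 hc hMp hpc
  have hpp : p.Prime := Fact.out
  have hp0 : (0 : ℝ) < p := by exact_mod_cast hpp.pos
  have hY00 : (0 : ℝ) < Y0 := by exact_mod_cast hY0
  have hYp : Y1 < p := by
    have : Y1 * 1 ≤ Y1 * M := Nat.mul_le_mul_left _ (by omega)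
    nlinarith
  have hne : ∀ y ∈ Y, ((y : ℕ) : ZMod p) ≠ 0 := by
    intro y hy h
    rw [ZMod.natCast_eq_zero_iff] at h
    have h1 := Nat.le_of_dvd (hY y hy).1.pos h
    have h2 := (hY y hy).2.2
    omega
  -- the function
  set r : ZMod p → ℝ := fun s => (#(S.filter fun i => z i = s) : ℝ) with hr
  have hR1 : ∑ s, r s = #S := by
    rw [hr]
    have := card_eq_sum_card_fiberwise (s := S) (t := (univ : Finset (ZMod p))) (f := z)
      (fun _ _ => mem_coe.mpr (mem_univ _))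
    rw [this]
    push_cast
    rfl
  have hR2 : ∑ s, r s ^ 2 = E0 S z := by
    unfold E0
    have h4 : #((S ×ˢ S).filter fun q => z q.1 = z q.2) =
        ∑ t : ZMod p, #(S.filter fun s => z s = t) ^ 2 := by
      rw [card_eq_sum_card_fiberwise (f := fun q : ι × ι => z q.1) (t := (univ : Finset (ZMod p)))]
      · refine sum_congr rfl fun t _ => ?_
        rw [sq, ← card_product]
        congr 1
        ext q
        simp only [mem_filter, mem_product]
        constructor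
        · rintro ⟨⟨⟨h1, h2⟩, h3⟩, h4⟩
          exact ⟨⟨h1, h4⟩, h2, h3.symm.trans h4⟩
        · rintro ⟨⟨h1, h4⟩, h2, h3⟩
          exact ⟨⟨⟨h1, h2⟩, h4.trans h3.symm⟩, h4⟩
      · intro q _
        exact mem_coe.mpr (mem_univ _)
    rw [h4]
    push_cast
    rfl
  -- the measure
  have hnu : ∀ u : ZMod p, ∑ y ∈ Y, ∑ n ∈ range M, r (u * (y : ZMod p) - (n : ZMod p)) =
      (#((S ×ˢ range M ×ˢ Y).filter fun q =>
        (z q.1 + (q.2.1 : ZMod p)) / (q.2.2 : ZMod p) = u) : ℝ) := by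
    intro u
    rw [card_filter, sum_product]
    push_cast
    simp only [sum_product]
    have h1 : ∀ y ∈ Y, ∀ n ∈ range M, r (u * (y : ZMod p) - (n : ZMod p)) =
        ∑ i ∈ S, if (z i + (n : ZMod p)) / (y : ZMod p) = u then (1 : ℝ) else 0 := by
      intro y hy n _
      rw [hr]
      simp only
      rw [card_filter]
      push_cast
      refine sum_congr rfl fun i _ => ?_
      have h2 : z i = u * (y : ZMod p) - (n : ZMod p) ↔
          (z i + (n : ZMod p)) / (y : ZMod p) = u := by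
        rw [div_eq_iff (hne y hy), eq_sub_iff_add_eq]
      simp only [h2]
    rw [sum_congr rfl fun y hy => sum_congr rfl fun n hn => h1 y hy n hn]
    calc _ = ∑ y ∈ Y, ∑ i ∈ S, ∑ n ∈ range M,
          (if (z i + (n : ZMod p)) / (y : ZMod p) = u then (1 : ℝ) else 0) :=
            sum_congr rfl fun y _ => sum_comm
      _ = ∑ i ∈ S, ∑ y ∈ Y, ∑ n ∈ range M,
          (if (z i + (n : ZMod p)) / (y : ZMod p) = u then (1 : ℝ) else 0) := sum_comm
      _ = _ := sum_congr rfl fun i _ => sum_comm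
  have hN2 : (N2 S z M Y : ℝ) = ∑ u : ZMod p,
      (∑ y ∈ Y, ∑ n ∈ range M, r (u * (y : ZMod p) - (n : ZMod p))) ^ 2 := by
    simp only [hnu]
    unfold N2
    set S' := S ×ˢ range M ×ˢ Y with hS'
    set g : ι × ℕ × ℕ → ZMod p := fun q => (z q.1 + (q.2.1 : ZMod p)) / (q.2.2 : ZMod p) with hg
    have h0 : ((S' ×ˢ S').filter fun q => (q.2.2.2 : ZMod p) * (z q.1.1 + (q.1.2.1 : ZMod p)) =
        (q.1.2.2 : ZMod p) * (z q.2.1 + (q.2.2.1 : ZMod p))) =
        (S' ×ˢ S').filter fun q => g q.1 = g q.2 := by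
      apply filter_congr
      intro q hq
      rw [hS', mem_product, mem_product, mem_product, mem_product, mem_product] at hq
      have a1 := hne _ hq.1.2.2
      have a2 := hne _ hq.2.2.2
      rw [hg]
      simp only
      rw [div_eq_div_iff a1 a2, mul_comm (q.2.2.2 : ZMod p), mul_comm (q.1.2.2 : ZMod p)]
    rw [h0]
    have h4 : #((S' ×ˢ S').filter fun q => g q.1 = g q.2) =
        ∑ t : ZMod p, #(S'.filter fun s => g s = t) ^ 2 := by
      rw [card_eq_sum_card_fiberwise (f := fun q : (ι × ℕ × ℕ) × (ι × ℕ × ℕ) => g q.1)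
        (t := (univ : Finset (ZMod p)))]
      · refine sum_congr rfl fun t _ => ?_
        rw [sq, ← card_product]
        congr 1
        ext q
        simp only [mem_filter, mem_product]
        constructor
        · rintro ⟨⟨⟨h1, h2⟩, h3⟩, h4⟩
          exact ⟨⟨h1, h4⟩, h2, h3.symm.trans h4⟩
        · rintro ⟨⟨h1, h4⟩, h2, h3⟩
          exact ⟨⟨⟨h1, h2⟩, h4.trans h3.symm⟩, h4⟩
      · intro q _
        exact mem_coe.mpr (mem_univ _)
    rw [h4]
    push_cast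
    rfl
  rw [hN2]
  have hmain := second_moment r (fun s => Nat.cast_nonneg _) M Y0 Y1 c hY0 hY0M hY01
    (by nlinarith) Y hY hc (few_primes Y0 c hY0 hpc Y (fun y hy => ⟨(hY y hy).1, (hY y hy).2.1⟩))
  rw [hR1, hR2] at hmain
  refine hmain.trans ?_
  apply add_le_add _ le_rfl
  have h1 : 0 ≤ ((Y1 : ℝ) / Y0) * c * (M : ℝ) ^ 2 * #Y * E0 S z := by positivity
  nlinarith

end MPcb27.TG
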